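import Pool.Agent.Lib_helper15.KZF.AsmF
import Pool.Agent.Lib_helper15.KZF.UNI

/-!
# Hamiltonian decompositions of products with a large graph

There is `N₀` such that for every graph `K` of odd order which decomposes into `p ≥ 1` Hamiltonian
cycles and every graph `G` with `N ≥ N₀` vertices which decomposes into `q` Hamiltonian cycles, the
Cartesian product of `K` and `G` decomposes into `p + q` Hamiltonian cycles provided that
`N ≤ 7 * (q / p)` (floor division).

Work of the seats helper15, helper62, helper56 (proof), with block files by helpers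
2, 6, 7, 8, 10, 21, 22, 29, 31, 32, 35, 36, 37, 38, 50, 53, 74, 75, 76, 88, 89, 93, 94, and the
weighted nibble of helper96.
-/

set_option autoImplicit false

namespace Pool.Agent.Results.MP_e8e25f_co.OddFactorLargeGraph

theorem result : ∃ N₀ : ℕ, ∀ (V W : Type) [Fintype V] [DecidableEq V] [Fintype W]
    [DecidableEq W] (G : SimpleGraph V) (K : SimpleGraph W) (p q : ℕ), 1 ≤ p →
    (∃ (a : Fin p → W) (c : ∀ j, K.Walk (a j) (a j)), (∀ j, (c j).IsHamiltonianCycle) ∧
      ∀ e ∈ K.edgeSet, ∃! j, e ∈ (c j).edges) →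
    (∃ (a : Fin q → V) (c : ∀ j, G.Walk (a j) (a j)), (∀ j, (c j).IsHamiltonianCycle) ∧
      ∀ e ∈ G.edgeSet, ∃! j, e ∈ (c j).edges) →
    Odd (Fintype.card W) → N₀ ≤ Fintype.card V → Fintype.card V ≤ 7 * (q / p) →
    ∃ (a : Fin (p + q) → W × V) (c : ∀ j, (K.boxProd G).Walk (a j) (a j)),
      (∀ j, (c j).IsHamiltonianCycle) ∧
        ∀ e ∈ (K.boxProd G).edgeSet, ∃! j, e ∈ (c j).edges := by
  obtain ⟨N₀, H⟩ := Pool.Agent.KZ.kotzig_large
  exact ⟨N₀, fun V W _ _ _ _ G K p q hp hK hG hW h0 h7 =>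
    Pool.Agent.KZ.several H V W G K p q hp hK hG hW h0 h7⟩

end Pool.Agent.Results.MP_e8e25f_co.OddFactorLargeGraph
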